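import Pool.Agent.MP_3ad207_lc.H6.HubSpec
import Pool.Agent.MP_3ad207_lc.H41.T1

/-! The two sides of a white vertex of the tree. -/

set_option autoImplicit false

namespace Pool.Agent.Ehf

namespace U3

variable {V : Type*} {G : SimpleGraph V} {S I : Set V} {ρ c c' x : V}

theorem up_subset : upS G S I ρ c ⊆ HH S I \ {c} := comp_subset _ _

theorem self_notMem_up : c ∉ upS G S I ρ c := fun h => (up_subset h).2 rfl

theorem self_notMem_low : c ∉ lowS G S I ρ c := fun h => h.1.2 rfl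

theorem mem_up (h : Setup G S I) (hρ : ρ ∈ HH S I) (hx : x ∈ HH S I) :
    x ∈ upS G S I ρ c ↔ c ∉ h.hseg ρ x := h.mem_comp_iff hρ hx

theorem mem_low (h : Setup G S I) (hρ : ρ ∈ HH S I) :
    x ∈ lowS G S I ρ c ↔ x ∈ HH S I ∧ x ≠ c ∧ c ∈ h.hseg ρ x :=
  ⟨fun a => ⟨a.1.1, a.1.2, not_not.1 fun b => a.2 ((mem_up h hρ a.1.1).2 b)⟩,
    fun a => ⟨⟨a.1, a.2.1⟩, fun b => (mem_up h hρ a.1).1 b a.2.2⟩⟩

theorem anti_up_low : Anti G (upS G S I ρ c) (lowS G S I ρ c) := fun _ hx _ hy =>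
  ⟨fun e => hy.2 (e ▸ hx), fun e => hy.2 (mem_comp_of_adj hx e hy.1)⟩

theorem conn_up (hρ : ρ ∈ I \ S) (hc : c ∈ S \ I) : Conn G (upS G S I ρ c) :=
  conn_comp ⟨black_mem_HH hρ, black_ne_white hρ hc⟩

theorem low_eq (h : Setup G S I) (hρ : ρ ∈ I \ S) (hc : c ∈ S \ I) :
    ∃ b ∈ HH S I \ {c}, G.Adj c b ∧ lowS G S I ρ c = comp G (HH S I \ {c}) b := by
  have key : ∀ a b, b ∈ I \ S → G.Adj c b →
      Anti G (comp G (HH S I \ {c}) a) (comp G (HH S I \ {c}) b) →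
      comp G (HH S I \ {c}) a ∪ comp G (HH S I \ {c}) b = HH S I \ {c} →
      ρ ∈ comp G (HH S I \ {c}) a →
      ∃ b ∈ HH S I \ {c}, G.Adj c b ∧ lowS G S I ρ c = comp G (HH S I \ {c}) b := by
    intro a b hb e hA hU hr
    refine ⟨b, ⟨black_mem_HH hb, black_ne_white hb hc⟩, e, ?_⟩
    unfold lowS upS
    rw [comp_eq_of_mem hr]
    ext y
    exact ⟨fun hy => ((hU.ge hy.1).resolve_left hy.2),
      fun hy => ⟨comp_subset _ _ hy, hA.symm.notMem hy⟩⟩
  obtain ⟨a, b, -, ha, hb, ea, eb, -, hA, hU⟩ := h.white_split hc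
  rcases hU.ge (show ρ ∈ HH S I \ {c} from ⟨black_mem_HH hρ, black_ne_white hρ hc⟩) with r | r
  · exact key a b hb eb hA hU r
  · exact key b a ha ea hA.symm (Set.union_comm _ _ ▸ hU) r

theorem conn_low (h : Setup G S I) (hρ : ρ ∈ I \ S) (hc : c ∈ S \ I) :
    Conn G (lowS G S I ρ c) := by
  obtain ⟨b, hb, -, e⟩ := low_eq h hρ hc
  exact e ▸ conn_comp hb

theorem sees_low (h : Setup G S I) (hρ : ρ ∈ I \ S) (hc : c ∈ S \ I) :
    Sees G c (lowS G S I ρ c) := by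
  obtain ⟨b, hb, a, e⟩ := low_eq h hρ hc
  exact ⟨b, e ▸ mem_comp_self hb, a⟩

theorem hlen_lt (h : Setup G S I) (hρ : ρ ∈ HH S I) (hc' : c' ∈ lowS G S I ρ c) :
    h.hlen ρ c < h.hlen ρ c' := by
  obtain ⟨a, b, d⟩ := (mem_low h hρ).1 hc'
  have := (h.hseg_split hρ a d).1
  have := h.hlen_pos (h.hseg_subset_H hρ a d) a b.symm
  omega

theorem subset_up {T : Set V} (hT : Conn G T) (hH : T ⊆ HH S I) (hc : c ∉ T) (hx : x ∈ T)
    (hu : x ∈ upS G S I ρ c) : T ⊆ upS G S I ρ c :=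
  hT.subset_comp (U := HH S I \ {c})
    (fun _ hy => ⟨hH hy, fun e => hc ((Set.mem_singleton_iff.1 e) ▸ hy)⟩) (Touch.of_mem hx hu)

theorem mem_up_of_low (h : Setup G S I) (hρ : ρ ∈ HH S I) (hc' : c' ∈ lowS G S I ρ c) :
    c ∈ upS G S I ρ c' := by
  obtain ⟨a, b, d⟩ := (mem_low h hρ).1 hc'
  have hc := h.hseg_subset_H hρ a d
  by_contra e
  have := hlen_lt h hρ (show c ∈ lowS G S I ρ c' from ⟨⟨hc, b.symm⟩, e⟩)
  have := hlen_lt h hρ hc'
  omega

theorem up_mono (h : Setup G S I) (hρ : ρ ∈ HH S I) (hc' : c' ∈ lowS G S I ρ c) :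
    upS G S I ρ c ⊆ upS G S I ρ c' := by
  intro y hy
  have hy' := (up_subset hy).1
  rw [mem_up h hρ hy'] at hy ⊢
  exact fun e => hy (h.hseg_subset_hseg hρ hy' (h.left_mem_hseg hρ hy') e
    ((mem_low h hρ).1 hc').2.2)

theorem low_mono (h : Setup G S I) (hρ : ρ ∈ HH S I) (hc' : c' ∈ lowS G S I ρ c) :
    lowS G S I ρ c' ⊆ lowS G S I ρ c := fun _ hy =>
  ⟨⟨hy.1.1, fun e => hy.2 ((Set.mem_singleton_iff.1 e) ▸ mem_up_of_low h hρ hc')⟩,
    fun e => hy.2 (up_mono h hρ hc' e)⟩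

theorem anti_low (h : Setup G S I) (hρ : ρ ∈ I \ S) (hc' : c' ∈ S \ I) (hne : c ≠ c')
    (h1 : ¬ (c' ∈ lowS G S I ρ c ∨ c ∈ lowS G S I ρ c')) :
    Anti G (lowS G S I ρ c) (lowS G S I ρ c') := by
  rw [not_or] at h1
  have a : c' ∈ upS G S I ρ c := not_not.1 fun e => h1.1 ⟨⟨white_mem_HH hc', hne.symm⟩, e⟩
  have b := subset_up ((conn_low h hρ hc').ins (Or.inr (sees_low h hρ hc')))
    (Set.insert_subset (white_mem_HH hc') fun y hy => hy.1.1)
    (fun e => e.elim hne h1.2) (Set.mem_insert _ _) a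
  exact anti_up_low.symm.mono le_rfl ((Set.subset_insert _ _).trans b)

theorem core {z : V} {f : ℕ → V} {n i : ℕ} (h : Setup G S I) (hρ : ρ ∈ HH S I)
    (s : Sect G S I z f n) (h0 : 0 < i) (hi : i < n) (a : f 0 ∈ upS G S I ρ (f i))
    (b : f n ∈ lowS G S I ρ (f i)) (hc : ∀ j, 0 < j → j < n → f j ≠ c) :
    (f i ∈ lowS G S I ρ c →
      Sees G z (comp G ((HH S I \ upS G S I ρ c) \ lowS G S I ρ (f i)) (f i))) ∧
    (c ∈ lowS G S I ρ (f i) →
      Sees G z (comp G ((HH S I \ upS G S I ρ (f i)) \ lowS G S I ρ c) (f i))) := by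
  have hH : ∀ p q, q ≤ n → seg f p q ⊆ HH S I := fun p q hq =>
    seg_subset fun k _ hk => s.mem k (hk.trans hq)
  constructor
  · intro e
    refine ⟨f 0, (s.ip.conn_seg (Nat.zero_le i) hi.le).subset_comp_of_mem
      (seg_subset (X := (HH S I \ upS G S I ρ c) \ lowS G S I ρ (f i)) fun k _ hk => ⟨⟨s.mem k (by omega), fun u => ?_⟩, fun u => ?_⟩)
      (apply_mem_seg (Nat.zero_le i) le_rfl) (apply_mem_seg le_rfl (Nat.zero_le i)), s.left⟩
    · refine e.2 (subset_up (s.ip.conn_seg hk hi.le) (hH _ _ hi.le) ?_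
        (apply_mem_seg le_rfl hk) u (apply_mem_seg hk le_rfl))
      rintro ⟨j, j1, j2, rfl⟩
      rcases Nat.eq_zero_or_pos j with rfl | j0
      · obtain rfl : k = 0 := by omega
        exact self_notMem_up u
      · exact hc j j0 (by omega) rfl
    · refine u.2 (subset_up (s.ip.conn_seg (Nat.zero_le k) (by omega)) (hH _ _ (by omega)) ?_
        (apply_mem_seg le_rfl (Nat.zero_le k)) a (apply_mem_seg (Nat.zero_le k) le_rfl))
      rintro ⟨j, -, j2, e'⟩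
      have := s.ip.inj (by omega) (by omega) e'
      obtain rfl : k = i := by omega
      exact self_notMem_low u
  · intro e
    refine ⟨f n, (s.ip.conn_seg hi.le le_rfl).subset_comp_of_mem
      (seg_subset (X := (HH S I \ upS G S I ρ (f i)) \ lowS G S I ρ c) fun k hk hk' => ⟨⟨s.mem k hk', fun u => ?_⟩, fun u => ?_⟩)
      (apply_mem_seg le_rfl hi.le) (apply_mem_seg hi.le le_rfl), s.right⟩
    · refine b.2 (subset_up (s.ip.conn_seg hk' le_rfl) (hH _ _ le_rfl) ?_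
        (apply_mem_seg le_rfl hk') u (apply_mem_seg hk' le_rfl))
      rintro ⟨j, j1, j2, e'⟩
      have := s.ip.inj j2 hi.le e'
      obtain rfl : k = i := by omega
      exact self_notMem_up u
    · refine u.2 (subset_up (s.ip.conn_seg hk hk') (hH _ _ hk') ?_
        (apply_mem_seg le_rfl hk) (mem_up_of_low h hρ e) (apply_mem_seg hk le_rfl))
      rintro ⟨j, j1, j2, rfl⟩
      rcases Nat.lt_or_ge j n with j0 | j0
      · exact hc j (by omega) j0 rfl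
      · obtain rfl : k = j := by omega
        exact self_notMem_low u

theorem sect_rev {z : V} {f : ℕ → V} {n : ℕ} (s : Sect G S I z f n) :
    Sect G S I z (fun k => f (n - k)) n :=
  ⟨s.ip.rev, fun j _ => s.mem _ (Nat.sub_le _ _), s.right, by simpa using s.left,
    fun j h0 hj => s.inner _ (by omega) (by omega)⟩

end U3

open U3

theorem treeFinalStmt : TreeFinalStmt := by
  classical
  intro V _ G S I h ρ hρ Cs 𝓡 hw hc h1 h2
  have hρ' := black_mem_HH hρ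
  rcases ramsey (fun c c' => c' ∈ lowS G S I ρ c ∨ c ∈ lowS G S I ρ c') (fun _ _ e => e.symm) 4 3
    Cs hc with ⟨t, ht, hc, hp⟩ | ⟨t, ht, hc, hp⟩
  · have key : ∀ c ∈ t, ∀ c' ∈ t, c ≠ c' → h.hlen ρ c ≤ h.hlen ρ c' → c' ∈ lowS G S I ρ c :=
      fun c a c' b e l => (hp c a c' b e).resolve_right fun u => (hlen_lt h hρ' u).not_ge l
    obtain ⟨c₁, m₁, l₁⟩ := t.exists_min_image (h.hlen ρ) (Finset.card_pos.1 (by omega))
    have k₁ := Finset.card_erase_of_mem m₁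
    obtain ⟨c₂, m₂, l₂⟩ := (t.erase c₁).exists_min_image (h.hlen ρ) (Finset.card_pos.1 (by omega))
    have k₂ := Finset.card_erase_of_mem m₂
    obtain ⟨c₃, m₃, l₃⟩ := ((t.erase c₁).erase c₂).exists_min_image (h.hlen ρ)
      (Finset.card_pos.1 (by omega))
    have k₃ := Finset.card_erase_of_mem m₃
    obtain ⟨c₄, m₄⟩ := Finset.card_pos.1 (show 0 < (((t.erase c₁).erase c₂).erase c₃).card by omega)
    obtain ⟨n₄, m₄⟩ := Finset.mem_erase.1 m₄
    have t₄ := Finset.mem_of_mem_erase (Finset.mem_of_mem_erase m₄)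
    obtain ⟨n₃, m₃⟩ := Finset.mem_erase.1 m₃
    have t₃ := Finset.mem_of_mem_erase m₃
    obtain ⟨n₂, t₂⟩ := Finset.mem_erase.1 m₂
    have a₂ := key c₁ m₁ c₂ t₂ n₂.symm (l₁ _ t₂)
    have a₃ := key c₂ t₂ c₃ t₃ n₃.symm (l₂ _ m₃)
    have a₄ := key c₃ t₃ c₄ t₄ n₄.symm (l₃ _ m₄)
    obtain ⟨R, hR, cR, sR⟩ := h2 c₂ (ht t₂) c₃ (ht t₃) a₃
    refine ⟨_, (h1 c₁ (ht m₁)).1, R, hR, _, (h1 c₄ (ht t₄)).2, conn_up hρ (hw _ (ht m₁)), cR,
      conn_low h hρ (hw _ (ht t₄)), anti_up_low.mono le_rfl fun y hy => ?_,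
      anti_up_low.mono le_rfl ((low_mono h hρ' a₄).trans
        ((low_mono h hρ' a₃).trans (low_mono h hρ' a₂))),
      anti_up_low.mono (fun y hy => ?_) le_rfl⟩
    · by_cases e : y = c₂
      · exact e ▸ a₂
      · exact low_mono h hρ' a₂ ⟨⟨(sR hy).1.1, e⟩, (sR hy).1.2⟩
    · by_cases e : y = c₃
      · exact e ▸ mem_up_of_low h hρ' a₄
      · exact up_mono h hρ' a₄ (not_not.1 fun u => (sR hy).2 ⟨⟨(sR hy).1.1, e⟩, u⟩)
  · obtain ⟨a, b, c, ab, ac, bc, rfl⟩ := Finset.card_eq_three.1 hc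
    have ha : a ∈ ({a, b, c} : Finset V) := by simp
    have hb : b ∈ ({a, b, c} : Finset V) := by simp
    have hc : c ∈ ({a, b, c} : Finset V) := by simp
    exact ⟨_, (h1 a (ht ha)).2, _, (h1 b (ht hb)).2, _, (h1 c (ht hc)).2,
      conn_low h hρ (hw _ (ht ha)), conn_low h hρ (hw _ (ht hb)), conn_low h hρ (hw _ (ht hc)),
      anti_low h hρ (hw _ (ht hb)) ab (hp a ha b hb ab),
      anti_low h hρ (hw _ (ht hc)) ac (hp a ha c hc ac),
      anti_low h hρ (hw _ (ht hc)) bc (hp b hb c hc bc)⟩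

theorem pairRegStmt : PairRegStmt := by
  intro V _ G S I h ρ hρ z f n i s h0 hi hw
  have hρ' := black_mem_HH hρ
  have m : f i ∈ h.hseg (f 0) (f n) := by
    rw [(h.hpath_eq s.ip s.mem rfl rfl).2.2]
    exact apply_mem_seg (Nat.zero_le _) hi.le
  have e0 : f 0 ∈ HH S I \ {f i} := ⟨s.mem 0 (Nat.zero_le _), s.ip.ne (by omega) hi.le h0.ne⟩
  have en : f n ∈ HH S I \ {f i} := ⟨s.mem n le_rfl, s.ip.ne le_rfl hi.le hi.ne'⟩
  by_cases a : f 0 ∈ upS G S I ρ (f i)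
  · have b : f n ∈ lowS G S I ρ (f i) := ⟨en, fun b => self_notMem_up
      (h.hseg_subset (conn_up hρ hw) (fun y hy => (up_subset hy).1) a b m)⟩
    exact ⟨⟨_, a, s.left⟩, ⟨_, b, s.right⟩, fun c _ hc => core h hρ' s h0 hi a b hc⟩
  · have b : f n ∈ upS G S I ρ (f i) := not_not.1 fun b => self_notMem_low
      (h.hseg_subset (conn_low h hρ hw) (fun y hy => hy.1.1) ⟨e0, a⟩ ⟨en, b⟩ m)
    refine ⟨⟨_, b, s.right⟩, ⟨_, ⟨e0, a⟩, s.left⟩, fun c _ hc => ?_⟩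
    have e : n - (n - i) = i := by omega
    have := core (c := c) (i := n - i) h hρ' (sect_rev s) (by omega) (by omega)
      (by simpa only [e, Nat.sub_zero] using b) (by simpa only [e, Nat.sub_self] using ⟨e0, a⟩)
      fun j j0 jn => hc _ (by omega) (by omega)
    simpa only [e] using this

end Pool.Agent.Ehf
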